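import Mathlib

set_option autoImplicit false

/-!
# MP_8dfbdc_an, Q1: a nonexpansive real analytic map of `(ℝ³, sup norm)` whose fixed point set is
not a `C¹` submanifold

`f (x, y, z) = (x, y, z - (θ (z + x) + θ (z + y) + θ z) / 3)` with `θ t = (t - sin t) / 2`. Its
fixed point set contains the lines spanned by `(1, -1, 0)` and `(-2, -1, 1)`, so a `C¹` surface
would have tangent plane `x + y + 3 z = 0` at the origin; but it also contains points
`(t, 0, z)` with `-t < z < - 2 t / 5` for all small `t > 0`.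
-/

open Set

namespace Pool.Agent.Results.MP_8dfbdc_an.NotC1

/-- `M` is a `C¹` embedded submanifold of `ℝⁿ`: around every point of `M` there is a `C¹`
diffeomorphism `ψ` between open sets of `ℝⁿ` which carries `M` to `ℝᵏ × {0}`. -/
def IsC1Submanifold {n : ℕ} (M : Set (Fin n → ℝ)) : Prop :=
  ∀ p ∈ M, ∃ k : ℕ, k ≤ n ∧ ∃ ψ : OpenPartialHomeomorph (Fin n → ℝ) (Fin n → ℝ),
    p ∈ ψ.source ∧ ContDiffOn ℝ 1 ψ ψ.source ∧ ContDiffOn ℝ 1 ψ.symm ψ.target ∧
      ψ '' (ψ.source ∩ M) = ψ.target ∩ {v | ∀ i : Fin n, k ≤ (i : ℕ) → v i = 0}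

/-- the third component -/
noncomputable def g (p : Fin 3 → ℝ) : ℝ :=
  p 2 - (((p 2 + p 0) - Real.sin (p 2 + p 0)) + ((p 2 + p 1) - Real.sin (p 2 + p 1))
    + (p 2 - Real.sin (p 2))) / 6

/-- the map -/
noncomputable def f (p : Fin 3 → ℝ) : Fin 3 → ℝ := ![p 0, p 1, g p]

lemma slope (a b : ℝ) : ∃ m : ℝ, 0 ≤ m ∧ m ≤ 1 ∧
    (a - Real.sin a) - (b - Real.sin b) = 2 * (m * (a - b)) := by
  by_cases h : a = b
  · exact ⟨0, le_refl _, zero_le_one, by rw [h]; ring⟩
  · have hab : a - b ≠ 0 := sub_ne_zero.2 h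
    have h1 : |Real.sin a - Real.sin b| ≤ |a - b| := Real.abs_sin_sub_sin_le a b
    have h2 : |(Real.sin a - Real.sin b) / (a - b)| ≤ 1 := by
      rw [abs_div, div_le_one (abs_pos.2 hab)]
      exact h1
    rw [abs_le] at h2
    refine ⟨(1 - (Real.sin a - Real.sin b) / (a - b)) / 2, by linarith [h2.2], by linarith [h2.1], ?_⟩
    field_simp
    ring

lemma g_lip (p q : Fin 3 → ℝ) : |g p - g q| ≤ ‖p - q‖ := by
  obtain ⟨m1, h1, h1', e1⟩ := slope (p 2 + p 0) (q 2 + q 0)
  obtain ⟨m2, h2, h2', e2⟩ := slope (p 2 + p 1) (q 2 + q 1)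
  obtain ⟨m3, h3, h3', e3⟩ := slope (p 2) (q 2)
  have n0 := norm_le_pi_norm (p - q) 0
  have n1 := norm_le_pi_norm (p - q) 1
  have n2 := norm_le_pi_norm (p - q) 2
  rw [Pi.sub_apply, Real.norm_eq_abs] at n0 n1 n2
  have e : g p - g q = (1 - (m1 + m2 + m3) / 3) * (p 2 - q 2) - m1 / 3 * (p 0 - q 0)
      - m2 / 3 * (p 1 - q 1) := by
    have : g p - g q = (p 2 - q 2) - (((p 2 + p 0 - Real.sin (p 2 + p 0))
        - (q 2 + q 0 - Real.sin (q 2 + q 0))) + ((p 2 + p 1 - Real.sin (p 2 + p 1))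
        - (q 2 + q 1 - Real.sin (q 2 + q 1))) + ((p 2 - Real.sin (p 2)) - (q 2 - Real.sin (q 2)))) / 6 := by
      unfold g; ring
    rw [this, e1, e2, e3]
    ring
  set N := ‖p - q‖ with hN
  have hN0 : 0 ≤ N := norm_nonneg _
  rw [e]
  calc |(1 - (m1 + m2 + m3) / 3) * (p 2 - q 2) - m1 / 3 * (p 0 - q 0) - m2 / 3 * (p 1 - q 1)|
      ≤ |(1 - (m1 + m2 + m3) / 3) * (p 2 - q 2) - m1 / 3 * (p 0 - q 0)|
        + |m2 / 3 * (p 1 - q 1)| := abs_sub _ _
    _ ≤ |(1 - (m1 + m2 + m3) / 3) * (p 2 - q 2)| + |m1 / 3 * (p 0 - q 0)|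
        + |m2 / 3 * (p 1 - q 1)| := by gcongr; exact abs_sub _ _
    _ = (1 - (m1 + m2 + m3) / 3) * |p 2 - q 2| + m1 / 3 * |p 0 - q 0| + m2 / 3 * |p 1 - q 1| := by
        rw [abs_mul, abs_mul, abs_mul, abs_of_nonneg (by linarith : (0:ℝ) ≤ 1 - (m1 + m2 + m3) / 3),
          abs_of_nonneg (by positivity : (0:ℝ) ≤ m1 / 3), abs_of_nonneg (by positivity : (0:ℝ) ≤ m2 / 3)]
    _ ≤ (1 - (m1 + m2 + m3) / 3) * N + m1 / 3 * N + m2 / 3 * N := by
        have : (0:ℝ) ≤ 1 - (m1 + m2 + m3) / 3 := by linarith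
        gcongr
    _ ≤ N := by nlinarith

lemma f_lip : LipschitzWith 1 f := by
  refine LipschitzWith.of_dist_le_mul fun p q => ?_
  rw [NNReal.coe_one, one_mul, dist_eq_norm, dist_eq_norm, pi_norm_le_iff_of_nonneg (norm_nonneg _)]
  intro i
  have n0 := norm_le_pi_norm (p - q) 0
  have n1 := norm_le_pi_norm (p - q) 1
  fin_cases i
  · simpa [f] using n0
  · simpa [f] using n1
  · simpa [f, Real.norm_eq_abs] using g_lip p q

lemma f_analytic : ContDiff ℝ ⊤ f := by
  rw [contDiff_pi]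
  intro i
  have hp : ∀ j : Fin 3, ContDiff ℝ ⊤ (fun p : Fin 3 → ℝ => p j) := fun j => contDiff_apply ℝ ℝ j
  fin_cases i
  · exact hp 0
  · exact hp 1
  · show ContDiff ℝ ⊤ g
    unfold g
    have h0 := hp 0
    have h1 := hp 1
    have h2 := hp 2
    have h3 := Real.contDiff_sin (n := ⊤) |>.comp (h2.add h0)
    have h4 := Real.contDiff_sin (n := ⊤) |>.comp (h2.add h1)
    have h5 := Real.contDiff_sin (n := ⊤) |>.comp h2
    exact h2.sub (((((h2.add h0).sub h3).add ((h2.add h1).sub h4)).add (h2.sub h5)).div_const 6)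

lemma f_analytic' : AnalyticOnNhd ℝ f univ := by
  have := f_analytic
  exact (contDiff_omega_iff_analyticOnNhd).1 this

lemma mem_fix (p : Fin 3 → ℝ) : p ∈ Function.fixedPoints f ↔
    ((p 2 + p 0) - Real.sin (p 2 + p 0)) + ((p 2 + p 1) - Real.sin (p 2 + p 1))
    + (p 2 - Real.sin (p 2)) = 0 := by
  rw [Function.mem_fixedPoints_iff]
  constructor
  · intro h
    have := congrFun h 2
    simp only [f, g, Matrix.cons_val] at this
    linarith
  · intro h
    funext i
    fin_cases i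
    · rfl
    · rfl
    · show g p = p 2
      unfold g
      linarith

lemma line1 (t : ℝ) : (![t, -t, 0] : Fin 3 → ℝ) ∈ Function.fixedPoints f := by
  rw [mem_fix]
  simp

lemma line2 (t : ℝ) : (![-2 * t, -t, t] : Fin 3 → ℝ) ∈ Function.fixedPoints f := by
  rw [mem_fix]
  simp only [Matrix.cons_val]
  have e : t + -2 * t = -t := by ring
  have e' : t + -t = 0 := by ring
  rw [e, e', Real.sin_neg, Real.sin_zero]
  ring

lemma curve (t : ℝ) (h0 : 0 < t) (h1 : t ≤ 1) : ∃ z : ℝ, -t ≤ z ∧ z ≤ -(2 / 5 * t) ∧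
    (![t, 0, z] : Fin 3 → ℝ) ∈ Function.fixedPoints f := by
  let W : ℝ → ℝ := fun z => ((z + t) - Real.sin (z + t)) + (z - Real.sin z) + (z - Real.sin z)
  have hW : Continuous W := by
    show Continuous fun z : ℝ => ((z + t) - Real.sin (z + t)) + (z - Real.sin z) + (z - Real.sin z)
    fun_prop
  have hle : -t ≤ -(2 / 5 * t) := by linarith
  have a1 : W (-t) ≤ 0 := by
    show ((-t + t) - Real.sin (-t + t)) + (-t - Real.sin (-t)) + (-t - Real.sin (-t)) ≤ 0
    have := Real.sin_lt h0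
    rw [neg_add_cancel, Real.sin_zero, Real.sin_neg]
    linarith
  have a2 : 0 ≤ W (-(2 / 5 * t)) := by
    show 0 ≤ ((-(2 / 5 * t) + t) - Real.sin (-(2 / 5 * t) + t))
      + (-(2 / 5 * t) - Real.sin (-(2 / 5 * t))) + (-(2 / 5 * t) - Real.sin (-(2 / 5 * t)))
    have e : -(2 / 5 * t) + t = 3 / 5 * t := by ring
    rw [e, Real.sin_neg]
    have b1 := Real.sin_bound (x := 3 / 5 * t) (by rw [abs_of_nonneg (by positivity)]; linarith)
    have b2 := Real.sin_bound (x := 2 / 5 * t) (by rw [abs_of_nonneg (by positivity)]; linarith)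
    rw [abs_le, abs_of_nonneg (by positivity : (0:ℝ) ≤ 3 / 5 * t)] at b1
    rw [abs_le, abs_of_nonneg (by positivity : (0:ℝ) ≤ 2 / 5 * t)] at b2
    have c1 := b1.2
    have c2 := b2.1
    have h3 : 0 < t ^ 3 := by positivity
    have h4 : t ^ 4 ≤ t ^ 3 := by
      have : t ^ 4 = t ^ 3 * t := by ring
      nlinarith
    nlinarith
  obtain ⟨z, hz, hWz⟩ := intermediate_value_Icc hle hW.continuousOn (show (0:ℝ) ∈ Icc (W (-t)) (W (-(2 / 5 * t))) from ⟨a1, a2⟩)
  refine ⟨z, hz.1, hz.2, ?_⟩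
  rw [mem_fix]
  have : W z = 0 := hWz
  simp only [Matrix.cons_val]
  rw [add_zero]
  exact this

lemma only_zero (z : ℝ) (h : (![0, 0, z] : Fin 3 → ℝ) ∈ Function.fixedPoints f) : z = 0 := by
  rw [mem_fix] at h
  simp only [Matrix.cons_val, add_zero] at h
  rcases lt_trichotomy z 0 with h1 | h1 | h1
  · have := Real.lt_sin h1
    linarith
  · exact h1
  · have := Real.sin_lt h1
    linarith

/-- **Q1, disproof.** On `ℝ³` with the sup norm there is a nonexpansive real analytic map with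
fixed points whose fixed point set is not a `C¹` embedded submanifold. -/
theorem result : ∃ F : (Fin 3 → ℝ) → (Fin 3 → ℝ), LipschitzWith 1 F ∧ AnalyticOnNhd ℝ F univ ∧
    (Function.fixedPoints F).Nonempty ∧ ¬ IsC1Submanifold (Function.fixedPoints F) := by
  have hz : (0 : Fin 3 → ℝ) ∈ Function.fixedPoints f := by
    rw [mem_fix]; simp
  refine ⟨f, f_lip, f_analytic', ⟨0, hz⟩, fun hM => ?_⟩
  obtain ⟨k, hk, ψ, h0, hψ, hψ', himg⟩ := hM 0 hz
  have hsrc : ψ.source ∈ nhds (0 : Fin 3 → ℝ) := ψ.open_source.mem_nhds h0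
  rcases Nat.lt_or_ge 2 k with hk3 | hk2
  · -- `k = 3`: an open set of fixed points
    have hall : ∀ p ∈ ψ.source, p ∈ Function.fixedPoints f := by
      intro p hp
      have h1 : ψ p ∈ ψ '' (ψ.source ∩ Function.fixedPoints f) := by
        rw [himg]
        refine ⟨ψ.map_source hp, fun i hi => ?_⟩
        have := i.2
        omega
      obtain ⟨q, ⟨hq1, hq2⟩, hq3⟩ := h1
      rwa [← ψ.injOn hq1 hp hq3]
    have hcont : Continuous fun z : ℝ => (![0, 0, z] : Fin 3 → ℝ) := by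
      refine continuous_pi fun i => ?_
      fin_cases i
      · exact continuous_const
      · exact continuous_const
      · exact continuous_id
    have he : (![0, 0, 0] : Fin 3 → ℝ) = 0 := by
      funext i; fin_cases i <;> rfl
    have hev : ∀ᶠ z in nhds (0 : ℝ), (![0, 0, z] : Fin 3 → ℝ) ∈ ψ.source := by
      apply hcont.continuousAt
      show ψ.source ∈ nhds (![0, 0, 0] : Fin 3 → ℝ)
      rw [he]
      exact hsrc
    rw [Metric.eventually_nhds_iff] at hev
    obtain ⟨ε, hε, hball⟩ := hev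
    have h2 := hball (y := ε / 2) (by rw [Real.dist_eq, sub_zero, abs_of_pos (by linarith)]; linarith)
    have := only_zero _ (hall _ h2)
    linarith
  · -- `k ≤ 2`
    have hd : DifferentiableAt ℝ ψ 0 :=
      (hψ.contDiffAt hsrc).differentiableAt (by norm_num)
    have htgt : ψ.target ∈ nhds (ψ 0) := ψ.open_target.mem_nhds (ψ.map_source h0)
    have hd' : DifferentiableAt ℝ ψ.symm (ψ 0) :=
      (hψ'.contDiffAt htgt).differentiableAt (by norm_num)
    set A := fderiv ℝ ψ 0 with hA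
    have hAd : HasFDerivAt ψ A 0 := hd.hasFDerivAt
    set B := fderiv ℝ ψ.symm (ψ 0) with hB
    have hBd : HasFDerivAt ψ.symm B (ψ 0) := hd'.hasFDerivAt
    -- `A` is surjective
    have hcomp : HasFDerivAt (ψ ∘ ψ.symm) (A.comp B) (ψ 0) := by
      have h3 : ψ.symm (ψ 0) = 0 := ψ.left_inv h0
      have h4 : HasFDerivAt ψ A (ψ.symm (ψ 0)) := by rw [h3]; exact hAd
      exact h4.comp (ψ 0) hBd
    have hid : HasFDerivAt (ψ ∘ ψ.symm) (ContinuousLinearMap.id ℝ (Fin 3 → ℝ)) (ψ 0) := by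
      refine (hasFDerivAt_id (ψ 0)).congr_of_eventuallyEq ?_
      filter_upwards [htgt] with y hy
      exact ψ.right_inv hy
    have hAB : A.comp B = ContinuousLinearMap.id ℝ (Fin 3 → ℝ) := hcomp.unique hid
    -- the functional
    set pr : (Fin 3 → ℝ) →L[ℝ] ℝ := ContinuousLinearMap.proj (R := ℝ) (φ := fun _ : Fin 3 => ℝ) 2 with hpr
    set lam : (Fin 3 → ℝ) →L[ℝ] ℝ := pr.comp A with hlam
    have hlam0 : ∃ v, lam v ≠ 0 := by
      refine ⟨B (Pi.single 2 1), ?_⟩
      have : A (B (Pi.single 2 1)) = Pi.single 2 1 := by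
        have := congrArg (fun T : (Fin 3 → ℝ) →L[ℝ] (Fin 3 → ℝ) => T (Pi.single 2 1)) hAB
        simpa using this
      simp [hlam, hpr, this]
    have hφ : HasFDerivAt (fun p => pr (ψ p)) lam 0 := pr.hasFDerivAt.comp 0 hAd
    have hvan : ∀ p ∈ ψ.source ∩ Function.fixedPoints f, pr (ψ p) = 0 := by
      intro p hp
      have h1 : ψ p ∈ ψ.target ∩ {v | ∀ i : Fin 3, k ≤ (i : ℕ) → v i = 0} := by
        rw [← himg]; exact mem_image_of_mem _ hp
      exact h1.2 2 hk2
    have hlo := hφ.isLittleO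
    have hpr0 : pr (ψ 0) = 0 := hvan 0 ⟨h0, hz⟩
    -- for every `c > 0`, points `p` of the fixed point set near `0` satisfy `|lam p| ≤ c * ‖p‖`
    have hsmall : ∀ c : ℝ, 0 < c → ∃ δ : ℝ, 0 < δ ∧ ∀ p : Fin 3 → ℝ, ‖p‖ < δ →
        p ∈ Function.fixedPoints f → |lam p| ≤ c * ‖p‖ := by
      intro c hc
      have h1 := hlo.def hc
      have h2 := h1.and hsrc
      rw [Metric.eventually_nhds_iff] at h2
      obtain ⟨δ, hδ, hball⟩ := h2
      refine ⟨δ, hδ, fun p hp hpf => ?_⟩
      obtain ⟨h3, h4⟩ := hball (y := p) (by rw [dist_zero_right]; exact hp)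
      rw [hvan p ⟨h4, hpf⟩, hpr0, sub_zero, sub_zero, zero_sub, norm_neg, Real.norm_eq_abs] at h3
      exact h3
    -- lines in the fixed point set are killed by `lam`
    have hline : ∀ v : Fin 3 → ℝ, (∀ t : ℝ, t • v ∈ Function.fixedPoints f) → lam v = 0 := by
      intro v hv
      by_contra hne
      have hvn : v ≠ 0 := by
        intro h; rw [h, map_zero] at hne; exact hne rfl
      have hvpos : 0 < ‖v‖ := norm_pos_iff.2 hvn
      have habs : 0 < |lam v| := abs_pos.2 hne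
      obtain ⟨δ, hδ, h1⟩ := hsmall (|lam v| / (2 * ‖v‖)) (by positivity)
      have h2 := h1 ((δ / (2 * ‖v‖)) • v) (by
        rw [norm_smul, Real.norm_eq_abs, abs_of_pos (by positivity)]
        have : δ / (2 * ‖v‖) * ‖v‖ = δ / 2 := by field_simp
        rw [this]; linarith) (hv _)
      rw [map_smul, smul_eq_mul, abs_mul, norm_smul, Real.norm_eq_abs,
        abs_of_pos (by positivity : 0 < δ / (2 * ‖v‖))] at h2
      have h3 : |lam v| / (2 * ‖v‖) * (δ / (2 * ‖v‖) * ‖v‖) = δ / (2 * ‖v‖) * (|lam v| / 2) := by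
        field_simp
      rw [h3] at h2
      have h4 : 0 < δ / (2 * ‖v‖) := by positivity
      have h5 := le_of_mul_le_mul_left h2 h4
      linarith
    have l1 : lam ![1, -1, 0] = 0 := by
      apply hline
      intro t
      have : t • (![1, -1, 0] : Fin 3 → ℝ) = ![t, -t, 0] := by
        funext i; fin_cases i <;> simp
      rw [this]
      exact line1 t
    have l2 : lam ![-2, -1, 1] = 0 := by
      apply hline
      intro t
      have : t • (![-2, -1, 1] : Fin 3 → ℝ) = ![-2 * t, -t, t] := by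
        funext i
        fin_cases i
        · simp; ring
        · simp
        · simp
      rw [this]
      exact line2 t
    -- so `lam (x, y, z) = c * (x + y + 3 z)`
    set c : ℝ := lam ![1, 0, 0] with hc
    have hform : ∀ x y z : ℝ, lam ![x, y, z] = c * (x + y + 3 * z) := by
      intro x y z
      have e : (![x, y, z] : Fin 3 → ℝ) = (x + y + 3 * z) • ![1, 0, 0] + (-(y + z)) • ![1, -1, 0]
          + z • ![-2, -1, 1] := by
        funext i
        fin_cases i
        · simp; ring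
        · simp
        · simp
      rw [e, map_add, map_add, map_smul, map_smul, map_smul, l1, l2]
      simp [hc]
      ring
    have hc0 : c ≠ 0 := by
      intro h
      obtain ⟨v, hv⟩ := hlam0
      apply hv
      have e : v = ![v 0, v 1, v 2] := by
        funext i; fin_cases i <;> rfl
      rw [e, hform, h, zero_mul]
    have hcpos : 0 < |c| := abs_pos.2 hc0
    obtain ⟨δ, hδ, h1⟩ := hsmall (|c| / 10) (by positivity)
    set t : ℝ := min 1 (δ / 2) with ht
    have ht0 : 0 < t := lt_min one_pos (by linarith)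
    have ht1 : t ≤ 1 := min_le_left _ _
    have htδ : t ≤ δ / 2 := min_le_right _ _
    obtain ⟨z, hz1, hz2, hzf⟩ := curve t ht0 ht1
    have hzabs : |z| ≤ t := abs_le.2 ⟨hz1, by linarith⟩
    have hnorm : ‖(![t, 0, z] : Fin 3 → ℝ)‖ ≤ t := by
      rw [pi_norm_le_iff_of_nonneg ht0.le]
      intro i
      fin_cases i
      · simp [abs_of_pos ht0]
      · simp [ht0.le]
      · simpa using hzabs
    have h2 := h1 _ (by linarith) hzf
    rw [hform, abs_mul] at h2
    have h3 : t / 5 ≤ |t + 0 + 3 * z| := by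
      rw [abs_of_nonpos (by linarith)]
      linarith
    have h4 : |c| * (t / 5) ≤ |c| / 10 * t := by
      calc |c| * (t / 5) ≤ |c| * |t + 0 + 3 * z| := by gcongr
        _ ≤ |c| / 10 * ‖(![t, 0, z] : Fin 3 → ℝ)‖ := h2
        _ ≤ |c| / 10 * t := by gcongr
    nlinarith

end Pool.Agent.Results.MP_8dfbdc_an.NotC1
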